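import Pool.Agent.helper78.FS.Spec

/-!
# MP_55808c_co, project FS: row TOT (helper77)
-/

set_option autoImplicit false

namespace Pool.Agent.helper78.FS

open Finset Real

theorem TOT : TOT_stmt := by
  intro hU V ι _ _ col σ a b c n Dp B hn hS hB
  classical
  obtain ⟨-, -, -, -, -, hdet⟩ := hU
  obtain ⟨A, hA⟩ : ∃ A : ι → ℤ, A = fun f => al col σ (a f) (b f) (c f) := ⟨_, rfl⟩
  have hal : ∀ f, |A f| ≤ 1 := by
    intro f
    rw [hA]
    exact hdet _ _
  obtain ⟨k, hk⟩ : ∃ k : ι → ℤ, k = fun f => (if a f ∈ Dp then 1 else 0) + (if b f ∈ Dp then 1 else 0) +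
    (if c f ∈ Dp then 1 else 0) := ⟨_, rfl⟩
  have h1 : ∑ x ∈ Dp, SS col σ a b c x = ∑ f, k f * A f := by
    unfold SS
    rw [Finset.sum_comm]
    refine Finset.sum_congr rfl fun f _ => ?_
    rw [← Finset.sum_mul, hA, hk]
    congr 1
    rw [Finset.sum_add_distrib, Finset.sum_add_distrib, Finset.sum_ite_eq, Finset.sum_ite_eq, Finset.sum_ite_eq]
  have h2 : ∑ x ∈ Dp, SS col σ a b c x = Dp.card * (6 * n) := by
    rw [Finset.sum_congr rfl hS, Finset.sum_const, nsmul_eq_mul]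
  have h3 : |∑ f, (3 - k f) * A f| ≤ 3 * B := by
    calc |∑ f, (3 - k f) * A f| ≤ ∑ f, |(3 - k f) * A f| := Finset.abs_sum_le_sum_abs _ _
      _ ≤ ∑ f, (if a f ∉ Dp ∨ b f ∉ Dp ∨ c f ∉ Dp then (3 : ℤ) else 0) := by
          refine Finset.sum_le_sum fun f _ => ?_
          rw [abs_mul]
          have h5 := hal f
          have h6 : |3 - k f| ≤ if a f ∉ Dp ∨ b f ∉ Dp ∨ c f ∉ Dp then (3 : ℤ) else 0 := by
            rw [hk]
            by_cases h7 : a f ∈ Dp <;> by_cases h8 : b f ∈ Dp <;> by_cases h9 : c f ∈ Dp <;> simp [h7, h8, h9]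
          calc |3 - k f| * |A f| ≤ |3 - k f| * 1 := mul_le_mul_of_nonneg_left h5 (abs_nonneg _)
            _ ≤ _ := by rw [mul_one]; exact h6
      _ = 3 * (((Finset.univ : Finset ι).filter (fun f => a f ∉ Dp ∨ b f ∉ Dp ∨ c f ∉ Dp)).card : ℤ) := by
          rw [← Finset.sum_filter, Finset.sum_const, nsmul_eq_mul, mul_comm]
      _ ≤ 3 * B := by
          have h7 : ((Finset.univ : Finset ι).filter (fun f => a f ∉ Dp ∨ b f ∉ Dp ∨ c f ∉ Dp)).card ≤ B := by
            exact le_trans (le_of_eq (congrArg Finset.card (Finset.ext fun f => by simp only [Finset.mem_filter]))) hB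
          have : (((Finset.univ : Finset ι).filter (fun f => a f ∉ Dp ∨ b f ∉ Dp ∨ c f ∉ Dp)).card : ℤ) ≤ B := by
            exact_mod_cast h7
          linarith
  have h4 : ∑ f, (3 - k f) * A f = 3 * (∑ f, A f) - ∑ f, k f * A f := by
    rw [Finset.mul_sum, ← Finset.sum_sub_distrib]
    refine Finset.sum_congr rfl fun f _ => ?_
    ring
  have h5 : ∑ f, al col σ (a f) (b f) (c f) = ∑ f, A f := by rw [hA]
  rw [h5]
  rw [h4, ← h1, h2] at h3
  obtain ⟨s, hs⟩ : ∃ s, s = ∑ f, A f := ⟨_, rfl⟩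
  rw [← hs] at h3 ⊢
  have hD : (0 : ℤ) ≤ Dp.card := by positivity
  rcases lt_or_gt_of_ne hn with h | h
  · have h6 : (Dp.card : ℤ) * n ≤ Dp.card * (-1) := mul_le_mul_of_nonneg_left (by omega) hD
    have h7 := abs_le.1 h3
    have h8 := neg_abs_le s
    linarith [h7.1, h7.2]
  · have h6 : (Dp.card : ℤ) * 1 ≤ Dp.card * n := mul_le_mul_of_nonneg_left (by omega) hD
    have h7 := abs_le.1 h3
    have h8 := le_abs_self s
    linarith [h7.1, h7.2]

end Pool.Agent.helper78.FS
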